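import Pool.Agent.H143.RicC

/-!
# The Rényi information-combining bound of BSC / pure-state type at order 3

For all classical-quantum states `1/2 ∑ₓ σₓ ⊗ |x⟩⟨x|` with finite-dimensional quantum side
information, the combined sandwiched Rényi entropy of order `3` equals `F₃(H₁, H₂)`.
-/

namespace Pool.Agent.Results.MP_560646_mp.OrderThree

open H143.Ric

/-- The binary Rényi entropy of order `α`. -/
noncomputable def hbin (α p : ℝ) : ℝ := 1 / (1 - α) * Real.log (p ^ α + (1 - p) ^ α)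

/-- The inverse of `hbin α` on `[0, 1/2]`. -/
noncomputable def ginv (α H : ℝ) : ℝ := Function.invFunOn (hbin α) (Set.Icc 0 (1 / 2)) H

/-- Binary convolution. -/
def conv (p q : ℝ) : ℝ := p * (1 - q) + (1 - p) * q

/-- The expression `F_α(H₁, H₂)` of the problem. -/
noncomputable def Fbsc (α H₁ H₂ : ℝ) : ℝ :=
  if H₁ + H₂ ≤ Real.log 2 then hbin α (conv (ginv α H₁) (ginv α H₂))
  else H₁ + H₂ - Real.log 2 +
    hbin α (conv (ginv α (Real.log 2 - H₁)) (ginv α (Real.log 2 - H₂)))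

lemma h3 (p : ℝ) : hbin 3 p = -(1 / 2) * Real.log (1 / 4 + 3 / 4 * (1 - 2 * p) ^ 2) := by
  unfold hbin
  have : p ^ (3 : ℝ) + (1 - p) ^ (3 : ℝ) = 1 / 4 + 3 / 4 * (1 - 2 * p) ^ 2 := by
    rw [show (3 : ℝ) = ((3 : ℕ) : ℝ) by norm_num, Real.rpow_natCast, Real.rpow_natCast]
    push_cast; ring
  rw [this]; norm_num

lemma h3_anti : StrictMonoOn (hbin 3) (Set.Icc 0 (1 / 2)) := by
  intro p hp q hq hpq
  rw [h3, h3]
  have h1 : (1 - 2 * q) ^ 2 < (1 - 2 * p) ^ 2 := by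
    have := hq.2
    nlinarith [hp.1]
  have h2 : Real.log (1 / 4 + 3 / 4 * (1 - 2 * q) ^ 2) < Real.log (1 / 4 + 3 / 4 * (1 - 2 * p) ^ 2) :=
    Real.log_lt_log (by positivity) (by linarith)
  linarith

lemma surj (H : ℝ) (h0 : 0 ≤ H) (h1 : H ≤ Real.log 2) :
    ∃ p ∈ Set.Icc (0 : ℝ) (1 / 2), hbin 3 p = H := by
  have hk0 : 1 / 4 ≤ Real.exp (-2 * H) := by
    have : Real.exp (-2 * Real.log 2) = 1 / 4 := by
      rw [show -2 * Real.log 2 = Real.log ((1 : ℝ) / 4) by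
        rw [show (1 : ℝ) / 4 = 2⁻¹ ^ 2 by norm_num, Real.log_pow, Real.log_inv]; push_cast; ring,
        Real.exp_log (by norm_num)]
    rw [← this]
    exact Real.exp_le_exp.2 (by linarith)
  have hk1 : Real.exp (-2 * H) ≤ 1 := by
    rw [← Real.exp_zero]; exact Real.exp_le_exp.2 (by linarith)
  set k := Real.exp (-2 * H) with hk
  have hs0 : 0 ≤ (4 * k - 1) / 3 := by linarith
  have hs1 : (4 * k - 1) / 3 ≤ 1 := by linarith
  have hsq := Real.sq_sqrt hs0
  have hsn := Real.sqrt_nonneg ((4 * k - 1) / 3)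
  have hsl : Real.sqrt ((4 * k - 1) / 3) ≤ 1 := by
    calc Real.sqrt ((4 * k - 1) / 3) ≤ Real.sqrt 1 := Real.sqrt_le_sqrt hs1
      _ = 1 := Real.sqrt_one
  refine ⟨(1 - Real.sqrt ((4 * k - 1) / 3)) / 2, ⟨by linarith, by linarith⟩, ?_⟩
  rw [h3]
  have : 1 / 4 + 3 / 4 * (1 - 2 * ((1 - Real.sqrt ((4 * k - 1) / 3)) / 2)) ^ 2 = k := by
    have e : 1 - 2 * ((1 - Real.sqrt ((4 * k - 1) / 3)) / 2) = Real.sqrt ((4 * k - 1) / 3) := by ring
    rw [e, hsq]; ring
  rw [this, hk, Real.log_exp]; ring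

lemma gspec (H : ℝ) (h0 : 0 ≤ H) (h1 : H ≤ Real.log 2) :
    ginv 3 H ∈ Set.Icc (0 : ℝ) (1 / 2) ∧ hbin 3 (ginv 3 H) = H := by
  have := surj H h0 h1
  exact ⟨Function.invFunOn_mem this, Function.invFunOn_eq this⟩

lemma gx (k H : ℝ) (hk : 1 / 4 ≤ k) (hk1 : k ≤ 1) (hH : H = -(1 / 2) * Real.log k) :
    3 / 4 * (1 - 2 * ginv 3 H) ^ 2 = k - 1 / 4 := by
  have hkp : 0 < k := by linarith
  have h0 : 0 ≤ H := by
    have := Real.log_nonpos (by linarith) hk1
    rw [hH]; linarith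
  have h1 : H ≤ Real.log 2 := by
    have h2 : Real.log (1 / 4) ≤ Real.log k := Real.log_le_log (by norm_num) hk
    have h3 : Real.log ((1 : ℝ) / 4) = -2 * Real.log 2 := by
      rw [show (1 : ℝ) / 4 = 2⁻¹ ^ 2 by norm_num, Real.log_pow, Real.log_inv]; push_cast; ring
    rw [hH]; linarith
  have h2 := (gspec H h0 h1).2
  rw [h3] at h2
  have h4 : Real.log (1 / 4 + 3 / 4 * (1 - 2 * ginv 3 H) ^ 2) = Real.log k := by linarith
  have h5 := Real.log_injOn_pos (by
    show 0 < 1 / 4 + 3 / 4 * (1 - 2 * ginv 3 H) ^ 2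
    positivity) (show 0 < k from hkp) h4
  linarith

theorem result {b c : Type} [Fintype b] [DecidableEq b] [Fintype c] [DecidableEq c]
    (σ : Fin 2 → Matrix b b ℂ) (σ' : Fin 2 → Matrix c c ℂ)
    (hσ : ∀ k, IsDensity (σ k)) (hσ' : ∀ k, IsDensity (σ' k)) :
    condH 3 (tau σ σ') = Fbsc 3 (condH 3 (cq σ)) (condH 3 (cq σ')) ∧
    (0 ≤ condH 3 (cq σ) ∧ condH 3 (cq σ) ≤ Real.log 2) ∧
    StrictMonoOn (hbin 3) (Set.Icc 0 (1 / 2)) ∧
    ∀ H, 0 ≤ H → H ≤ Real.log 2 →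
      ginv 3 H ∈ Set.Icc (0 : ℝ) (1 / 2) ∧ hbin 3 (ginv 3 H) = H := by
  obtain ⟨A, B, A', B', hA, hB, hA', hB', h, h', q1, q2, q3⟩ := reduce 3 (by norm_num) σ σ' hσ hσ'
  obtain ⟨k, k', e1, e2, e3, i1, i2, i3, i4⟩ := core3 hA hB hA' hB' h h'
  rw [e1] at q1; rw [e2] at q2; rw [e3] at q3
  simp only [Nat.cast_ofNat] at q1 q2 q3
  have hH1 : condH 3 (cq σ) = -(1 / 2) * Real.log k := by
    unfold condH; rw [q1]; norm_num
  have hH2 : condH 3 (cq σ') = -(1 / 2) * Real.log k' := by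
    unfold condH; rw [q2]; norm_num
  have hHt : condH 3 (tau σ σ') = -(1 / 2) * Real.log (k * k' + (1 - k) * (1 - k') / 3) := by
    unfold condH; rw [q3]; norm_num
  have hl4 : Real.log ((1 : ℝ) / 4) = -2 * Real.log 2 := by
    rw [show (1 : ℝ) / 4 = 2⁻¹ ^ 2 by norm_num, Real.log_pow, Real.log_inv]; push_cast; ring
  have hkp : 0 < k := by linarith
  have hkp' : 0 < k' := by linarith
  refine ⟨?_, ⟨?_, ?_⟩, h3_anti, fun H h0 h1 => gspec H h0 h1⟩
  · rw [hHt, hH1, hH2]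
    unfold Fbsc
    split_ifs with hc
    · have g1 := gx k _ i1 i2 rfl
      have g2 := gx k' _ i3 i4 rfl
      rw [h3]
      congr 2
      have : (1 - 2 * conv (ginv 3 (-(1 / 2) * Real.log k)) (ginv 3 (-(1 / 2) * Real.log k'))) =
        (1 - 2 * ginv 3 (-(1 / 2) * Real.log k)) * (1 - 2 * ginv 3 (-(1 / 2) * Real.log k')) := by
        unfold conv; ring
      rw [this, mul_pow]
      have : 3 / 4 * ((1 - 2 * ginv 3 (-(1 / 2) * Real.log k)) ^ 2 *
          (1 - 2 * ginv 3 (-(1 / 2) * Real.log k')) ^ 2) =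
          4 / 3 * ((3 / 4 * (1 - 2 * ginv 3 (-(1 / 2) * Real.log k)) ^ 2) *
            (3 / 4 * (1 - 2 * ginv 3 (-(1 / 2) * Real.log k')) ^ 2)) := by ring
      rw [this, g1, g2]; ring
    · have hb1 : 1 / 4 ≤ 1 / (4 * k) := by
        rw [div_le_div_iff₀ (by norm_num) (by linarith)]; linarith
      have hb2 : 1 / (4 * k) ≤ 1 := by
        rw [div_le_one (by linarith)]; linarith
      have hb1' : 1 / 4 ≤ 1 / (4 * k') := by
        rw [div_le_div_iff₀ (by norm_num) (by linarith)]; linarith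
      have hb2' : 1 / (4 * k') ≤ 1 := by
        rw [div_le_one (by linarith)]; linarith
      have hlog : ∀ t : ℝ, 0 < t → Real.log 2 - -(1 / 2) * Real.log t =
          -(1 / 2) * Real.log (1 / (4 * t)) := by
        intro t ht
        rw [show 1 / (4 * t) = (1 / 4) * t⁻¹ by field_simp, Real.log_mul (by norm_num)
          (by positivity), hl4, Real.log_inv]; ring
      have g1 := gx (1 / (4 * k)) _ hb1 hb2 rfl
      have g2 := gx (1 / (4 * k')) _ hb1' hb2' rfl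
      rw [← hlog k hkp] at g1
      rw [← hlog k' hkp'] at g2
      rw [h3]
      set u := ginv 3 (Real.log 2 - -(1 / 2) * Real.log k) with hu
      set v := ginv 3 (Real.log 2 - -(1 / 2) * Real.log k') with hv
      have e5 : 1 / 4 + 3 / 4 * (1 - 2 * conv u v) ^ 2 =
          1 / 4 + 4 / 3 * ((1 / (4 * k) - 1 / 4) * (1 / (4 * k') - 1 / 4)) := by
        rw [← g1, ← g2]; unfold conv; ring
      have e6 : k * k' + (1 - k) * (1 - k') / 3 =
          k * k' * (4 * (1 / 4 + 4 / 3 * ((1 / (4 * k) - 1 / 4) * (1 / (4 * k') - 1 / 4)))) := by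
        field_simp
      have hpos : 0 < 1 / 4 + 4 / 3 * ((1 / (4 * k) - 1 / 4) * (1 / (4 * k') - 1 / 4)) := by
        have := mul_nonneg (sub_nonneg.2 hb1) (sub_nonneg.2 hb1')
        linarith
      rw [e5, e6, Real.log_mul (by positivity) (by positivity), Real.log_mul hkp.ne' hkp'.ne',
        Real.log_mul (by norm_num) hpos.ne']
      have hl4' : Real.log 4 = 2 * Real.log 2 := by
        rw [show (4 : ℝ) = 2 ^ 2 by norm_num, Real.log_pow]; push_cast; ring
      rw [hl4']; ring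
  · rw [hH1]; have := Real.log_nonpos hkp.le i2; linarith
  · rw [hH1]
    have h2 : Real.log (1 / 4) ≤ Real.log k := Real.log_le_log (by norm_num) i1
    linarith

end Pool.Agent.Results.MP_560646_mp.OrderThree
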